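import Pool.Agent.Y35.VQ.Main

set_option autoImplicit false

/-!
# Verbal quotients of residually finite groups realise every group of a proper variety

Let `V` be a variety of groups, defined by a set `W` of laws, which is not the variety of all
groups. Every group `Q` in `V` is a retract of the verbal quotient `G / V(G)` of some residually
finite group `G`. Consequently, for EVERY property of groups inherited by subgroups (residual
finiteness is one of them) all verbal quotients `G / V(G)` of residually finite groups have the
property if and only if all groups in `V` have it, and the same holds for countable groups.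

Idea. Let `Q = E / S` with `E` free and let `w ≠ 1` be a law. For every pair of a finitely generated
subgroup `T` of `E` and an element outside `T` take a finite quotient `K` of `E` separating them
(M. Hall), and a finite group `A` with a value `c` of `w` of order divisible by the exponent of `K`.
In the wreath product of `K` and `A` the constant function `s` is the commutator of `c` and the
function `c ^ i h ↦ s ^ i` (`h` in a transversal of the cyclic group generated by `c`). In the product
of all these wreath products `G` is generated by the constant functions, the coordinates of the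
values of `w` and the functions above with `s` in `S`. The class in `E / S` of an element of `G` is
well defined because free groups are subgroup separable.
-/

namespace Pool.Agent.Results.MP_9fd99d_al.HereditaryVerbalQuotients

open Group Pool.Agent.Results.MP_9fd99d_al.VerbalQuotientRF Pool.Agent.Y35.VQ

/-- `Q` is finitely presented in the variety defined by `W`: it is the quotient of a free group `F`
of finite rank by the product of `W(F)` and the normal closure of a finite set. -/
def FinPresIn (W : Set (FreeGroup ℕ)) (Q : Type) [Group Q] : Prop :=
  ∃ (n : ℕ) (π : FreeGroup (Fin n) →* Q) (R : Set (FreeGroup (Fin n))),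
    Function.Surjective π ∧ R.Finite ∧
      π.ker = verbal W (FreeGroup (Fin n)) ⊔ Subgroup.normalClosure R

theorem finPresIn_of_finPres {W : Set (FreeGroup ℕ)} {Q : Type} [Group Q]
    (hQ : InVariety W Q) (h : Group.IsFinitelyPresented Q) : FinPresIn W Q := by
  obtain ⟨n, π, hπ, S, hS, hker⟩ := h
  refine ⟨n, π, S, hπ, hS, ?_⟩
  rw [hker]
  refine le_antisymm le_sup_right (sup_le ?_ le_rfl)
  intro x hx
  have h1 := verbal_map_le W π (Subgroup.mem_map_of_mem _ hx)
  rw [verbal_eq_bot_of_inVariety hQ, Subgroup.mem_bot] at h1
  exact h1

/-- `Q` is a retract of `H`. -/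
def IsRetract (Q H : Type) [Group Q] [Group H] : Prop :=
  ∃ (a : Q →* H) (b : H →* Q), b.comp a = MonoidHom.id Q

theorem IsRetract.injective {Q H : Type} [Group Q] [Group H] (h : IsRetract Q H) :
    ∃ a : Q →* H, Function.Injective a := by
  obtain ⟨a, b, hab⟩ := h
  exact ⟨a, fun x y hxy => by
    have hx := DFunLike.congr_fun hab x
    have hy := DFunLike.congr_fun hab y
    simp only [MonoidHom.comp_apply, MonoidHom.id_apply] at hx hy
    rw [← hx, hxy, hy]⟩

theorem universal (W : Set (FreeGroup ℕ)) (hW : ∃ w ∈ W, w ≠ 1) (Q : Type) [Group Q]
    (hQ : InVariety W Q) :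
    (∃ (G : Type) (_ : Group G), ResiduallyFinite G ∧ (Countable Q → Countable G) ∧
      IsRetract Q (G ⧸ verbal W G)) ∧
    (FinPresIn W Q → ∃ (G : Type) (_ : Group G), ResiduallyFinite G ∧ Group.FG G ∧
      IsRetract Q (G ⧸ verbal W G)) := by
  obtain ⟨w, hw, hw1⟩ := hW
  constructor
  · let π : FreeGroup Q →* Q := FreeGroup.lift id
    have hπ : Function.Surjective π := fun q => ⟨FreeGroup.of q, by
      change FreeGroup.lift id (FreeGroup.of q) = q
      rw [FreeGroup.lift_apply_of]; rfl⟩
    have hker : π.ker = verbal W (FreeGroup Q) ⊔ Subgroup.normalClosure (π.ker : Set _) := by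
      apply le_antisymm
      · exact le_trans Subgroup.subset_normalClosure le_sup_right
      · refine sup_le ?_ (Subgroup.normalClosure_le_normal (le_refl _))
        intro x hx
        have h1 := verbal_map_le W π (Subgroup.mem_map_of_mem _ hx)
        rw [verbal_eq_bot_of_inVariety hQ, Subgroup.mem_bot] at h1
        exact h1
    obtain ⟨G, gG, h1, h2, -, h3⟩ := present W w hw hw1 hQ π hπ _ hker
    exact ⟨G, gG, h1, h2, h3⟩
  · rintro ⟨n, π, R, hπ, hR, hker⟩
    obtain ⟨G, gG, h1, -, h2, h3⟩ := present W w hw hw1 hQ π hπ R hker
    exact ⟨G, gG, h1, h2 inferInstance hR, h3⟩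

/-- **Main theorem.** Let `V` be the variety of groups defined by a set `W` of laws.

(1) `G / V(G)` is residually finite for every residually finite group `G` if and only if `V` is the
variety of all groups or all groups in `V` are residually finite.

If `V` is not the variety of all groups, then moreover:

(2) every group `Q` in `V` is a retract of `G / V(G)` for some residually finite group `G`, which is
countable if `Q` is countable; if `Q` is finitely presented in `V` (for instance finitely presented)
there is a finitely generated such `G`;

(3) for every property `P` of groups inherited by subgroups (and isomorphic groups): all quotients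
`G / V(G)`, `G` residually finite, have `P` if and only if all groups in `V` have `P`; all quotients
`G / V(G)`, `G` countable and residually finite, have `P` if and only if all countable groups in `V`
have `P`; if all quotients `G / V(G)`, `G` finitely generated and residually finite, have `P`, then
all groups finitely presented in `V` have `P`. -/
theorem result (W : Set (FreeGroup ℕ)) :
    ((∀ (G : Type) [Group G], ResiduallyFinite G → ResiduallyFinite (G ⧸ verbal W G)) ↔
      ((∀ w ∈ W, w = 1) ∨ ∀ (H : Type) [Group H], InVariety W H → ResiduallyFinite H)) ∧
    ((∃ w ∈ W, w ≠ 1) →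
      (∀ (Q : Type) [Group Q], InVariety W Q →
        (∃ (G : Type) (_ : Group G), ResiduallyFinite G ∧ (Countable Q → Countable G) ∧
          IsRetract Q (G ⧸ verbal W G)) ∧
        (Group.IsFinitelyPresented Q → FinPresIn W Q) ∧
        (FinPresIn W Q → ∃ (G : Type) (_ : Group G), ResiduallyFinite G ∧ Group.FG G ∧
          IsRetract Q (G ⧸ verbal W G))) ∧
      (∀ P : (G : Type) → Group G → Prop,
        (∀ (A B : Type) (gA : Group A) (gB : Group B) (f : A →* B), Function.Injective f →
          P B gB → P A gA) →
        ((∀ (G : Type) [Group G], ResiduallyFinite G → P (G ⧸ verbal W G) inferInstance) ↔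
          ∀ (H : Type) (gH : Group H), InVariety W H → P H gH) ∧
        ((∀ (G : Type) [Group G], Countable G → ResiduallyFinite G →
            P (G ⧸ verbal W G) inferInstance) ↔
          ∀ (H : Type) (gH : Group H), Countable H → InVariety W H → P H gH) ∧
        ((∀ (G : Type) [Group G], Group.FG G → ResiduallyFinite G →
            P (G ⧸ verbal W G) inferInstance) →
          ∀ (H : Type) (gH : Group H), InVariety W H → FinPresIn W H → P H gH))) := by
  refine ⟨VerbalQuotientRF.result W, fun hW => ⟨fun Q _ hQ =>
    ⟨(universal W hW Q hQ).1, finPresIn_of_finPres hQ, (universal W hW Q hQ).2⟩, ?_⟩⟩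
  intro P hP
  refine ⟨⟨fun h H gH hH => ?_, fun h G _ _ => h _ _ (inVariety_quotient W G)⟩,
    ⟨fun h H gH hc hH => ?_, fun h G _ hc _ => h _ _ ?_ (inVariety_quotient W G)⟩,
    fun h H gH hH hF => ?_⟩
  · obtain ⟨G, gG, h1, -, h2⟩ := (universal W hW H hH).1
    obtain ⟨a, ha⟩ := h2.injective
    exact hP _ _ _ _ a ha (h G h1)
  · obtain ⟨G, gG, h1, h3, h2⟩ := (universal W hW H hH).1
    obtain ⟨a, ha⟩ := h2.injective
    exact hP _ _ _ _ a ha (h G (h3 hc) h1)
  · exact Function.Surjective.countable (QuotientGroup.mk'_surjective (verbal W G))
  · obtain ⟨G, gG, h1, h3, h2⟩ := (universal W hW H hH).2 hF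
    obtain ⟨a, ha⟩ := h2.injective
    exact hP _ _ _ _ a ha (h G h3 h1)

end Pool.Agent.Results.MP_9fd99d_al.HereditaryVerbalQuotients
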